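import Pool.Agent.Helper13.JS.St

/-! Module EL of project JS (MP_924f75_nt). -/

set_option autoImplicit false

namespace Pool.Agent.Helper82.JS

open Finset ArithmeticFunction Pool.Agent.Helper13.JS

theorem one_step (F : Finset ℕ) (p N : ℕ) (hp : p.Prime) :
    Ls F N * (1 - 1 / (p : ℝ)) ≤ Ls (insert p F) N := by
  classical
  have hp0 : 0 < p := hp.pos
  have hpR : (0 : ℝ) < p := by exact_mod_cast hp0
  set A : Finset ℕ := (Icc 1 N).filter (fun n => ∀ q ∈ F, ¬ q ∣ n) with hA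
  have h0 : Ls F N = ∑ n ∈ A, 1 / (n : ℝ) := by
    unfold Ls
    refine Finset.sum_congr ?_ fun _ _ => rfl
    ext n
    simp [hA]
  have h1 : Ls (insert p F) N = ∑ n ∈ A.filter (fun n => ¬ p ∣ n), 1 / (n : ℝ) := by
    unfold Ls
    refine Finset.sum_congr ?_ fun _ _ => rfl
    ext n
    simp only [hA, mem_filter, mem_insert, forall_eq_or_imp]
    tauto
  have h2 : ∑ n ∈ A.filter (fun n => p ∣ n), 1 / (n : ℝ) ≤ 1 / (p : ℝ) * ∑ n ∈ A, 1 / (n : ℝ) := by
    have hmul : ∀ n ∈ A.filter (fun n => p ∣ n), 1 / (n : ℝ) = 1 / (p : ℝ) * (1 / ((n / p : ℕ) : ℝ)) := by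
      intro n hn
      obtain ⟨hn1, hn2⟩ := mem_filter.1 hn
      have h3 : (n : ℝ) = p * ((n / p : ℕ) : ℝ) := by
        exact_mod_cast (Nat.mul_div_cancel' hn2).symm
      rw [h3, one_div_mul_one_div]
    rw [Finset.sum_congr rfl hmul, ← Finset.mul_sum]
    refine mul_le_mul_of_nonneg_left ?_ (by positivity)
    have hinj : Set.InjOn (fun n => n / p) (A.filter (fun n => p ∣ n) : Finset ℕ) := by
      intro a ha b hb hab
      have ha2 := (mem_filter.1 (Finset.mem_coe.1 ha)).2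
      have hb2 := (mem_filter.1 (Finset.mem_coe.1 hb)).2
      change a / p = b / p at hab
      calc a = p * (a / p) := (Nat.mul_div_cancel' ha2).symm
        _ = p * (b / p) := by rw [hab]
        _ = b := Nat.mul_div_cancel' hb2
    rw [← Finset.sum_image (f := fun m : ℕ => 1 / (m : ℝ)) hinj]
    refine Finset.sum_le_sum_of_subset_of_nonneg ?_ fun _ _ _ => by positivity
    intro m hm
    obtain ⟨n, hn, rfl⟩ := mem_image.1 hm
    obtain ⟨hn1, hn2⟩ := mem_filter.1 hn
    obtain ⟨hn3, hn4⟩ := mem_filter.1 hn1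
    obtain ⟨hn5, hn6⟩ := mem_Icc.1 hn3
    rw [hA, mem_filter, mem_Icc]
    refine ⟨⟨Nat.div_pos (Nat.le_of_dvd (by omega) hn2) hp0, (Nat.div_le_self _ _).trans hn6⟩,
      fun q hq hd => hn4 q hq (hd.trans (Nat.div_dvd_of_dvd hn2))⟩
  have h3 := Finset.sum_filter_add_sum_filter_not A (fun n => p ∣ n) (fun n : ℕ => 1 / (n : ℝ))
  rw [h0, h1]
  linarith

theorem el_union (E : Finset ℕ) (N : ℕ) (D : Finset ℕ) (hD : ∀ p ∈ D, p.Prime) :
    Ls E N * ∏ p ∈ D, (1 - 1 / (p : ℝ)) ≤ Ls (E ∪ D) N := by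
  classical
  induction D using Finset.induction_on with
  | empty => simp
  | insert p D hpD ih =>
    have hp : p.Prime := hD p (mem_insert_self _ _)
    have ih' := ih fun q hq => hD q (mem_insert_of_mem hq)
    have h1 := one_step (E ∪ D) p N hp
    have h2 : E ∪ insert p D = insert p (E ∪ D) := by
      rw [union_insert]
    rw [h2, Finset.prod_insert hpD]
    have hp1 : (1 : ℝ) ≤ p := by exact_mod_cast hp.one_lt.le
    have hnn : (0 : ℝ) ≤ 1 - 1 / (p : ℝ) := by
      have : 1 / (p : ℝ) ≤ 1 := by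
        rw [div_le_one (by linarith)]
        exact hp1
      linarith
    calc Ls E N * ((1 - 1 / (p : ℝ)) * ∏ q ∈ D, (1 - 1 / (q : ℝ)))
        = (Ls E N * ∏ q ∈ D, (1 - 1 / (q : ℝ))) * (1 - 1 / (p : ℝ)) := by ring
      _ ≤ Ls (E ∪ D) N * (1 - 1 / (p : ℝ)) := mul_le_mul_of_nonneg_right ih' hnn
      _ ≤ _ := h1

theorem hEL : StEL := by
  intro E E' N hp hsub
  have h := el_union E N (E' \ E) fun p hp' => hp p (mem_sdiff.1 hp').1
  rwa [Finset.union_sdiff_of_subset hsub] at h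

end Pool.Agent.Helper82.JS
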