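import Pool.Agent.Helper13.JS.St

/-! Module ELU of project JS (MP_924f75_nt). -/

set_option autoImplicit false

namespace Pool.Agent.Helper82.JS

open Finset ArithmeticFunction Pool.Agent.Helper13.JS

/-- only the members up to `N` matter -/
theorem Ls_filter (E : Finset ℕ) (N : ℕ) : Ls E N = Ls (E.filter (· ≤ N)) N := by
  classical
  unfold Ls
  refine Finset.sum_congr ?_ fun _ _ => rfl
  ext n
  simp only [mem_filter, mem_Icc, and_imp]
  constructor
  · rintro ⟨⟨h1, h2⟩, h3⟩
    exact ⟨⟨h1, h2⟩, fun p hp _ => h3 p hp⟩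
  · rintro ⟨⟨h1, h2⟩, h3⟩
    refine ⟨⟨h1, h2⟩, fun p hp hd => h3 p hp ((Nat.le_of_dvd (by omega) hd).trans h2) hd⟩

theorem Ls_empty (N : ℕ) : Real.log N ≤ Ls ∅ N := by
  classical
  have h1 : Ls ∅ N = (harmonic N : ℝ) := by
    unfold Ls
    rw [harmonic_eq_sum_Icc]
    push_cast
    refine Finset.sum_congr ?_ fun n _ => by rw [one_div]
    ext n
    simp
  rw [h1]
  rcases Nat.eq_zero_or_pos N with h | h
  · subst h
    simp
  · have h2 := log_add_one_le_harmonic N
    have h3 : Real.log N ≤ Real.log ((N : ℝ) + 1) :=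
      Real.log_le_log (by exact_mod_cast h) (by linarith)
    push_cast at h2
    linarith

/-- all primes up to `N` -/
theorem Ls_all (N : ℕ) : Ls ((Icc 1 N).filter Nat.Prime) N ≤ 1 := by
  classical
  unfold Ls
  refine (Finset.sum_le_sum_of_subset_of_nonneg (t := {1}) ?_ fun _ _ _ => by positivity).trans
    (by simp)
  intro n hn
  obtain ⟨hn1, hn2⟩ := mem_filter.1 hn
  obtain ⟨hn3, hn4⟩ := mem_Icc.1 hn1
  rw [mem_singleton]
  by_contra hne
  have hp := Nat.minFac_prime hne
  refine hn2 n.minFac ?_ (Nat.minFac_dvd n)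
  rw [mem_filter, mem_Icc]
  exact ⟨⟨hp.one_lt.le, (Nat.minFac_le (by omega)).trans hn4⟩, hp⟩

theorem hELU (hMP : StMP) (hEL : StEL) : StELU := by
  classical
  obtain ⟨C, hC, -, -, h3, h4⟩ := hMP
  refine ⟨C, hC, fun E N hE hN => ?_⟩
  set E1 := E.filter (· ≤ N) with hE1
  set P := (Icc 1 N).filter Nat.Prime with hP
  have hE1p : ∀ p ∈ E1, p.Prime := fun p hp => hE p (mem_filter.1 hp).1
  have hPp : ∀ p ∈ P, p.Prime := fun p hp => (mem_filter.1 hp).2
  have hsub : E1 ⊆ P := by
    intro p hp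
    obtain ⟨hp1, hp2⟩ := mem_filter.1 hp
    rw [hP, mem_filter, mem_Icc]
    exact ⟨⟨(hE p hp1).one_lt.le, hp2⟩, hE p hp1⟩
  have hPE : PE E N = ∏ p ∈ E1, (1 - 1 / (p : ℝ)) := rfl
  have hlog : 0 < Real.log N := Real.log_pos (by exact_mod_cast (by omega : 1 < N))
  rw [Ls_filter E N, ← hE1]
  constructor
  · have h := hEL ∅ E1 N hE1p (empty_subset _)
    rw [sdiff_empty, ← hPE] at h
    refine le_trans ?_ h
    exact mul_le_mul_of_nonneg_right (Ls_empty N) (h4 E N hE).1.le
  · have h := hEL E1 P N hPp hsub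
    have h5 := h.trans (Ls_all N)
    have hprod : (∏ p ∈ P \ E1, (1 - 1 / (p : ℝ))) * PE E N = PE P N := by
      rw [hPE, Finset.prod_sdiff hsub]
      unfold PE
      refine Finset.prod_congr ?_ fun _ _ => rfl
      ext p
      simp only [hP, mem_filter, mem_Icc]
      tauto
    have h6 := h3 P N hPp hN
    have hQ : 0 < PE E N := (h4 E N hE).1
    have hPP : 0 < PE P N := (h4 P N hPp).1
    have hQ' : 0 < ∏ p ∈ P \ E1, (1 - 1 / (p : ℝ)) := by
      by_contra hneg
      push Not at hneg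
      have := mul_nonpos_of_nonpos_of_nonneg hneg hQ.le
      linarith
    have h7 : Ls E1 N ≤ PE E N / PE P N := by
      rw [le_div_iff₀ hPP, ← hprod]
      calc Ls E1 N * ((∏ p ∈ P \ E1, (1 - 1 / (p : ℝ))) * PE E N)
          = (Ls E1 N * ∏ p ∈ P \ E1, (1 - 1 / (p : ℝ))) * PE E N := by ring
        _ ≤ 1 * PE E N := mul_le_mul_of_nonneg_right h5 hQ.le
        _ = PE E N := one_mul _
    refine h7.trans ?_
    rw [div_le_iff₀ hPP]
    have hC0 : 0 < C := by linarith
    have h8 : 1 ≤ C * Real.log N * PE P N := by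
      rw [div_le_iff₀ (by positivity)] at h6
      linarith
    calc PE E N = PE E N * 1 := (mul_one _).symm
      _ ≤ PE E N * (C * Real.log N * PE P N) := mul_le_mul_of_nonneg_left h8 hQ.le
      _ = C * Real.log N * PE E N * PE P N := by ring

end Pool.Agent.Helper82.JS
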